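import Pool.Agent.KS6_28.TB.Main

/-!
# Normal surfaces of type B: one cylinder, families of unbounded dimension

Let `K` be a field of characteristic zero. For `n ≥ 1` and a Laurent polynomial `f` with `f(1) = 1`
let `S(n, f)` be the surface `z ^ 2 = (T - 2) ((T - 1) ^ n y + (T - 2) f)` in `G_m × 𝔸²`. All these
surfaces are normal and of type B, all their cylinders are isomorphic, and `S(n, f)` is isomorphic
to `S(n', f')` if and only if `n = n'` and `f ≡ T ^ (2 j) f'` modulo `(T - 1) ^ n` for some integer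
`j`. In particular for every `r` there is an `r`-parameter family of pairwise non-isomorphic
surfaces with this one cylinder.
-/

open Polynomial LaurentPolynomial

set_option autoImplicit false

namespace Pool.Agent.Results.MP_340332_ag.NormalSurfaces

universe u

/-- A derivation is locally nilpotent. -/
def IsLND {K B : Type u} [Field K] [CommRing B] [Algebra K B] (D : Derivation K B B) : Prop :=
  ∀ b : B, ∃ n : ℕ, (⇑D)^[n] b = 0

/-- The modified Derksen invariant of `B = K[X]`: the subalgebra generated by the kernels of all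
the locally nilpotent derivations of `B` that have a slice. -/
def HDstar (K B : Type u) [Field K] [CommRing B] [Algebra K B] : Subalgebra K B :=
  Algebra.adjoin K {b : B | ∃ D : Derivation K B B, IsLND D ∧ (∃ s, D s = 1) ∧ D b = 0}

/-- Type B: `HD*` of the cylinder is a proper subalgebra that is not finitely generated. -/
def IsTypeB (K A : Type u) [Field K] [CommRing A] [Algebra K A] : Prop :=
  HDstar K A[X] ≠ ⊤ ∧ ¬ (HDstar K A[X]).FG

/-- `Spec A` is a rigid factor. -/
def IsRigidFactor (K A : Type u) [Field K] [CommRing A] [Algebra K A] : Prop :=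
  ∀ (B : Type u) [CommRing B] [Algebra K B], IsDomain B → Algebra.FiniteType K B →
    Nonempty (A[X] ≃ₐ[K] B[X]) → Nonempty (A ≃ₐ[K] B)

/-- The coordinate ring `K[T, T⁻¹][y][z]` of the surface `S(n, f)`, with
`z ^ 2 = (T - 2) (T - 1) ^ n y + (T - 2) ^ 2 f`; here `X` is the variable `y`. -/
abbrev S {K : Type u} [Field K] (n : ℕ) (f : K[T;T⁻¹]) : Type u :=
  QuadraticAlgebra K[T;T⁻¹][X]
    (Polynomial.C (((T 1 : K[T;T⁻¹]) - 2) * (T 1 - 1) ^ n) * X +
      Polynomial.C (((T 1 : K[T;T⁻¹]) - 2) ^ 2 * f)) 0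

/-- The condition `f(1) = 1`. -/
def OneAtOne {K : Type u} [Field K] (f : K[T;T⁻¹]) : Prop := (T 1 : K[T;T⁻¹]) - 1 ∣ f - 1

/-- The Laurent polynomial `1 + ∑ a_i (T - 1) ^ (i + 2)` with the parameters `a`. -/
noncomputable def F {K : Type u} [Field K] {r : ℕ} (a : Fin r → K) : K[T;T⁻¹] :=
  1 + ∑ i, LaurentPolynomial.C (a i) * ((T 1 : K[T;T⁻¹]) - 1) ^ ((i : ℕ) + 2)

/-- **Normal surfaces of type B.** Let `K` be a field of characteristic zero.
(1) For `n ≥ 1` and `f(1) = 1` the ring `S n f` is a normal domain, finitely generated over `K`, of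
type B, and `Spec (S n f)` is not a rigid factor.
(2) All the cylinders over these surfaces are isomorphic, for all `n` and `f`.
(3) `S n f` and `S n' f'` are isomorphic if and only if `n = n'` and `(T - 1) ^ n` divides
`f - T ^ (2 j) f'` for some integer `j`.
(4) For every `r` the surfaces `S (r + 2) (F a)`, `a ∈ K ^ r`, are pairwise non-isomorphic. -/
theorem result (K : Type u) [Field K] [CharZero K] :
    (∀ (n : ℕ) (f : K[T;T⁻¹]), 1 ≤ n → OneAtOne f →
      IsDomain (S n f) ∧ IsIntegrallyClosed (S n f) ∧ Algebra.FiniteType K (S n f) ∧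
        IsTypeB K (S n f) ∧ ¬ IsRigidFactor K (S n f)) ∧
    (∀ (n n' : ℕ) (f f' : K[T;T⁻¹]), 1 ≤ n → 1 ≤ n' → OneAtOne f → OneAtOne f' →
      Nonempty ((S n f)[X] ≃ₐ[K] (S n' f')[X])) ∧
    (∀ (n n' : ℕ) (f f' : K[T;T⁻¹]), 1 ≤ n → 1 ≤ n' → OneAtOne f → OneAtOne f' →
      (Nonempty (S n f ≃ₐ[K] S n' f') ↔
        n = n' ∧ ∃ j : ℤ, ((T 1 : K[T;T⁻¹]) - 1) ^ n ∣ f - T (2 * j) * f')) ∧
    (∀ (r : ℕ) (a : Fin r → K), OneAtOne (F a)) ∧
    (∀ (r : ℕ) (a b : Fin r → K), Nonempty (S (r + 2) (F a) ≃ₐ[K] S (r + 2) (F b)) → a = b) := by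
  refine ⟨fun n f hn hf => ?_, fun n n' f f' hn hn' hf hf' =>
    Pool.Agent.KS6_28.TB.cylinders hn hn' hf hf', fun n n' f f' hn hn' hf hf' =>
    Pool.Agent.KS6_28.TB.iso_iff hn hn' hf hf', fun r a => Pool.Agent.KS6_28.TB.fam_sub a,
    fun r a b ⟨φ⟩ => Pool.Agent.KS6_28.TB.fam_inj φ⟩
  have h1 : IsDomain (S (n + 1) f) := Pool.Agent.H.MP_340332_ag.dom (Pool.Agent.KS6_28.TB.mm_ne _)
  refine ⟨Pool.Agent.H.MP_340332_ag.dom (Pool.Agent.KS6_28.TB.mm_ne n),
    Pool.Agent.KS6_28.TB.sur_normal hf, Pool.Agent.H.MP_340332_ag.finT _ _,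
    Pool.Agent.KS6_28.TB.sur_typeB n f, fun h => ?_⟩
  have h2 := h (S (n + 1) f) h1 (Pool.Agent.H.MP_340332_ag.finT _ _)
    (Pool.Agent.KS6_28.TB.cylinders hn (by omega) hf hf)
  have h3 := ((Pool.Agent.KS6_28.TB.iso_iff hn (by omega) hf hf).1 h2).1
  omega

end Pool.Agent.Results.MP_340332_ag.NormalSurfaces
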