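import Mathlib
import Pool.Graph.R_seed8.H868R3.TBDef
import Pool.Agent.KS6_5.TB.Defs
import Pool.Agent.KS6_5.TB.Few

/-!
# Smooth factorial varieties of type B which are not rigid factors

Let `K` be a field of characteristic zero, `N ≥ 1`, and let `f ∈ K[x]` be prime to `x ^ N - 1`. We
consider the open subsets

`Y_f = {x ≠ 0, h_f ≠ 0}`, `h_f = 1 + (x ^ N - 1) y + (f(x) z) ^ 2`,

of the affine space of dimension three with the coordinates `x`, `y`, `z`. So `Y_f` is the complement
of a hypersurface in the affine space, a smooth, factorial and rational affine threefold. The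
simplest example is `N = 2`, `f = 1`: the set of all `(x, y, z)` with `x (1 + (x ^ 2 - 1) y + z ^ 2) ≠ 0`.

**Theorem.**
(1) All `Y_f` are of type B, and all the cylinders `Y_f × 𝔸¹` (for fixed `N`) are isomorphic.
(2) Let `K` contain a primitive root of unity of order `N`. Then `Y_g` and `Y_f` are isomorphic if and
only if there are `α`, `γ ≠ 0`, `p = 1` or `p = -1`, and `m` with `α ^ N = 1` and
`f(ζ) ^ 2 = (γ ζ ^ m) ^ 2 g(α ζ ^ p) ^ 2` for all `ζ` with `ζ ^ N = 1`. (`Y_f` depends only on the values
of `f` at the roots of unity.) For each `f` there are only finitely many `g` of degree less than `N` with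
`g(1) = 1` such that `Y_g` is isomorphic to `Y_f`: **the varieties with the same cylinder form families
with `N - 1` parameters**. For `N ≥ 2` no `Y_f` is a rigid factor.
(3) If `K` is algebraically closed there are such roots of unity for all `N`, so there are **smooth
factorial** affine varieties, even open subsets of the affine space of dimension three, which are of
type B and not rigid factors.

Relation to other results. The starting files answer the question (Yes) with nonnormal surfaces
(`TypeBNotRigid`, `TypeBFamilies` and others): pairs of points of `G_m × 𝔸¹` are glued, and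
all vector fields preserve the nonnormal points. They leave open whether this is a phenomenon of bad
singularities, and whether smooth, normal or factorial varieties of type B are rigid factors. Here the
varieties are as good as possible: smooth, with trivial Picard group, and rational, and the
isomorphism classes are determined completely. (`MP_340332_ag` does not ask for this; it is a stronger
form of the answer.)

The proof. A locally nilpotent derivation `D` of `K[Y_f × 𝔸¹]` vanishes on the units `x` and `h`. So
`(x ^ N - 1) D(y) + 2 f(x) ^ 2 z D(z) = 0`, and it follows that `D(y)` and `D(z)` vanish on the line `x = 1`,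
`z = 0` times `𝔸¹`: the common fixed points, in codimension two, of all actions of the additive group.
(In the proof this is an argument with power series in `z` and `x - 1`.) If `D` has a slice its
kernel therefore consists of functions which are constant along the second factor over the points of
this line. So `HD*` is not everything, and it is not finitely generated by a criterion of the starting
files (`not_fg_of`), as `Y_f` is not rigid: the derivation `δ` with `δ(x) = 0`, `δ(z) = x ^ N - 1`,
`δ(y) = - 2 f(x) ^ 2 z` is locally nilpotent.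

The isomorphism of the cylinders: if `g h = f + (x ^ N - 1) k` and `l h = 1 + (x ^ N - 1) m`, then
`z' = h(x) z + (x ^ N - 1) u`, `u' = m(x) z + l(x) u` defines it, where `y'` is determined by the condition
that `1 + (x ^ N - 1) y' + (g(x) z') ^ 2` is equal to `1 + (x ^ N - 1) y + (f(x) z) ^ 2`.

The classification: the units of `K[Y_f]` are the monomials `c x ^ i h ^ j` (`units_eq`). All
derivations which vanish on the units are multiples of `δ` (`deriv_eq`), so an isomorphism `φ` maps
`δ_g` to a unit times `δ_f` (`conj_deriv`), and `δ_f (φ z)` is a unit times `φ(x) ^ N - 1`. The kernel of `δ` is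
fixed by the involution `z ↦ - z` (`ker_fixed`). Comparison of the odd and even parts on the curves
`x = ζ`, `y = 0` shows that `φ(x) = α x ^ p` with `p = ± 1`, that `φ(h)` is a unit times `h`, and the
relation between the values of `f` and `g` (`values`).
-/

set_option autoImplicit false

namespace Pool.Agent.Results.MP_340332_ag.SmoothFactorialThreefolds

open Polynomial Pool.Agent.H868R3 Pool.Agent.KS6_5.TB

universe u

section props

variable (K : Type u) [Field K] (N : ℕ)

/-- all `Y_f` are smooth, irreducible, factorial affine varieties of type B -/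
def AllTypeB : Prop :=
  ∀ f : K[X], IsCoprime f (X ^ N - 1) → IsDomain (OpenRing N f) ∧
    Algebra.FiniteType K (OpenRing N f) ∧ Algebra.Smooth K (OpenRing N f) ∧
    UniqueFactorizationMonoid (OpenRing N f) ∧ IsTypeB K (OpenRing N f)

/-- all the cylinders are isomorphic -/
def SameCylinder : Prop :=
  ∀ f g : K[X], IsCoprime f (X ^ N - 1) → IsCoprime g (X ^ N - 1) →
    Nonempty ((OpenRing N f)[X] ≃ₐ[K] (OpenRing N g)[X])

/-- the classification of the `Y_f` up to isomorphism -/
def Classification : Prop :=
  ∀ f g : K[X], IsCoprime f (X ^ N - 1) → IsCoprime g (X ^ N - 1) →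
    (Nonempty (OpenRing N g ≃ₐ[K] OpenRing N f) ↔
      ∃ (α γ : Kˣ) (p m : ℤ), α ^ N = 1 ∧ (p = 1 ∨ p = -1) ∧ ∀ ζ : Kˣ, ζ ^ N = 1 →
        eval (ζ : K) f ^ 2 = ((γ * ζ ^ m : Kˣ) : K) ^ 2 * eval ((α * ζ ^ p : Kˣ) : K) g ^ 2)

/-- each `Y_f` is isomorphic to only finitely many `Y_g` with `deg g < N` and `g(1) = 1` -/
def FewIsomorphic : Prop :=
  ∀ f : K[X], IsCoprime f (X ^ N - 1) →
    {g ∈ Params K N | Nonempty (OpenRing N g ≃ₐ[K] OpenRing N f)}.Finite

/-- no `Y_f` is a rigid factor -/
def NoneRigid : Prop :=
  ∀ f : K[X], IsCoprime f (X ^ N - 1) → ¬ IsRigidFactor K (OpenRing N f)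

end props

/-- The strong form of the positive answer: there is an open subset `s ≠ 0` of the affine space of
dimension three, a smooth factorial variety, which is of type B and not a rigid factor. -/
def SmoothAnswer (K : Type u) [Field K] : Prop :=
  ∃ s : MvPolynomial (Fin 3) K, IsDomain (Localization.Away s) ∧
    Algebra.FiniteType K (Localization.Away s) ∧ Algebra.Smooth K (Localization.Away s) ∧
    UniqueFactorizationMonoid (Localization.Away s) ∧ IsTypeB K (Localization.Away s) ∧
    ¬ IsRigidFactor K (Localization.Away s)

/-- **Smooth factorial threefolds of type B which are not rigid factors, with isomorphic cylinders,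
and their classification.** -/
theorem result :
    (∀ (K : Type u) [Field K] [CharZero K] (N : ℕ), 1 ≤ N → AllTypeB K N ∧ SameCylinder K N) ∧
    (∀ (K : Type u) [Field K] [CharZero K] (N : ℕ) (ω : K), 1 ≤ N → IsPrimitiveRoot ω N →
      Classification K N ∧ FewIsomorphic K N ∧
        (2 ≤ N → (Params K N).Infinite ∧ NoneRigid K N)) ∧
    (∀ (K : Type u) [Field K] [IsAlgClosed K] [CharZero K] (N : ℕ), 1 ≤ N →
      ∃ ω : K, IsPrimitiveRoot ω N) ∧
    (∀ (K : Type u) [Field K] [IsAlgClosed K] [CharZero K], SmoothAnswer K) := by
  have h1 : ∀ (K : Type u) [Field K] [CharZero K] (N : ℕ), 1 ≤ N →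
      AllTypeB K N ∧ SameCylinder K N := by
    intro K _ _ N hN
    have hN0 : N ≠ 0 := by omega
    exact ⟨fun f hf => ⟨inferInstance, inferInstance, inferInstance, inferInstance,
      isTypeB hN0 (eval_one_ne hf (one_pow N))⟩, fun f g hf hg => cylinder hN0 hf hg⟩
  have h2 : ∀ (K : Type u) [Field K] [CharZero K] (N : ℕ) (ω : K), 1 ≤ N →
      IsPrimitiveRoot ω N → Classification K N ∧ FewIsomorphic K N ∧
        (2 ≤ N → (Params K N).Infinite ∧ NoneRigid K N) := by
    intro K _ _ N ω hN hω
    have hN0 : N ≠ 0 := by omega
    exact ⟨fun f g hf hg => iso_iff hω hN0 hf hg, fun f hf => few hω hN0 hf,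
      fun hN2 => ⟨params_infinite hω hN2, fun f hf => not_rigid hω hN2 hf⟩⟩
  have h3 : ∀ (K : Type u) [Field K] [IsAlgClosed K] [CharZero K] (N : ℕ), 1 ≤ N →
      ∃ ω : K, IsPrimitiveRoot ω N := by
    intro K _ _ _ N hN
    have : NeZero (N : K) := ⟨Nat.cast_ne_zero.2 (by omega)⟩
    exact HasEnoughRootsOfUnity.exists_primitiveRoot K N
  refine ⟨h1, h2, h3, fun K _ _ _ => ?_⟩
  obtain ⟨ω, hω⟩ := h3 K 2 one_le_two
  have hf : IsCoprime (1 : K[X]) (X ^ 2 - 1) := isCoprime_one_left
  obtain ⟨e1, e2, e3, e4, e5⟩ := (h1 K 2 one_le_two).1 1 hf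
  exact ⟨MvPolynomial.X 1 * hh 2 (1 : K[X]), e1, e2, e3, e4, e5,
    ((h2 K 2 ω one_le_two hω).2.2 le_rfl).2 1 hf⟩

end Pool.Agent.Results.MP_340332_ag.SmoothFactorialThreefolds
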